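import Pool.Agent.TH128.KC.Abs3

set_option autoImplicit false

namespace Pool.Agent.Results.MP_7d29e8_ag.MinusculeClassification

open Finset Pool.Agent.KottwitzG Pool.Agent.TH128.KC

/-- **Result.** Let `H` be a quasi-split connected reductive group over `ℚ_p` with based root datum
`R`, let `G` be the inner form of `H` given by the coweight `∑ c_a α_a^∨` of `H_ad` (every inner form
is of this form), let `b ∈ G` be basic with Kottwitz invariant the class of `y ∈ X_*(T)`, let `e` be
the coordinates of the adjoint part of `y`, so that `G_b` is the inner form given by `c + e`, and let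
`mu`, `mu'` be minuscule and dominant (the dominant representatives of `μ⁻¹`, `μ'⁻¹`). Number the
Dynkin diagram of each `ℚ_p`-simple factor of `H_ad` as in `IsFactor` (by the classification of
Dynkin diagrams this is always possible).

First part: `[b'] ↦ [b' b⁻¹]` maps `B(G, mu)` onto `B(G_b, mu')` iff `mu` and `mu' + y` have the
same class in `π_1(G)_Γ` and, on every `ℚ_p`-simple factor, the inner forms `G`, `G_b` and the
cocharacters `mu`, `mu'` are in the explicit list `Ty.Cond` for the type of the factor: the only
solutions have the same inner form and the same number of components of each kind, except for type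
`A` (inner, or outer with an odd number of nodes) and type `D` (inner).

Second part: for a factor of type `A_n` which is absolutely simple (one component) the list says
that the inner forms and the cocharacters are the same or, after exchanging them if necessary, are
one of five pairs: `(1, ω_n; 0, 0)`, `(n, ω_1; 0, 0)`, `(n, ω_1; 1, ω_n)`,
`(2, ω_(r-1); 1, ω_r)` with `r` the least integer `≥ (n+1)/2`, and `(n, ω_r; n-1, ω_(r+1))` with `r`
the integral part of `(n+1)/2`; here `a` stands for the inner form of invariant `a/(n+1)`. -/
theorem result {Γ V D : Type} [Group Γ] [Fintype Γ] [AddCommGroup V] [Module ℚ V]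
    [DistribMulAction Γ V] [Fintype D] [DecidableEq D] [MulAction Γ D] (R : Datum Γ V D)
    {ι : Type} (T : ι → Ty) (I : ι → Type) [∀ t, Fintype (I t)] (φ : ∀ t, ℕ → I t → D)
    (hφ : ∀ t, IsFactor R (T t) (φ t))
    (hcover : ∀ d : D, ∃ t, ∃ k ∈ Icc 1 (T t).rank, ∃ i, d = φ t k i)
    (c e : D → ℚ) (y : V) (hy : y ∈ R.Y) (hc : ∀ a, ∃ z : ℤ, R.root a (R.comb c) = z)
    (he : ∀ a, R.root a y = R.root a (R.comb e)) (mu mu' : V) (hmu : IsMinuscule R mu)
    (hmu' : IsMinuscule R mu') :
    (R.shift y e '' R.Kott c mu = R.Kott (fun a => c a + e a) mu' ↔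
      (QuotientAddGroup.mk mu : V ⧸ R.N) = QuotientAddGroup.mk mu' + QuotientAddGroup.mk y ∧
      ∀ t i, (T t).Cond (fun k => frac Γ c (φ t k i))
        (fun k => frac Γ (fun a => c a + e a) (φ t k i))
        (fun k => cnt R mu (φ t k i)) (fun k => cnt R mu' (φ t k i))) ∧
    ∀ t n, T t = .A n → Subsingleton (I t) → ∀ i,
      ((Ty.A n).Cond (fun k => frac Γ c (φ t k i))
        (fun k => frac Γ (fun a => c a + e a) (φ t k i))
        (fun k => cnt R mu (φ t k i)) (fun k => cnt R mu' (φ t k i)) ↔
      (∀ k ∈ Icc 1 n, frac Γ c (φ t k i) = frac Γ (fun a => c a + e a) (φ t k i) ∧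
        cnt R mu (φ t k i) = cnt R mu' (φ t k i)) ∨
      Listed n (fun k => frac Γ c (φ t k i)) (fun k => frac Γ (fun a => c a + e a) (φ t k i))
        (fun k => cnt R mu (φ t k i)) (fun k => cnt R mu' (φ t k i)) ∨
      Listed n (fun k => frac Γ (fun a => c a + e a) (φ t k i)) (fun k => frac Γ c (φ t k i))
        (fun k => cnt R mu' (φ t k i)) (fun k => cnt R mu (φ t k i))) := by
  refine ⟨classification R T I φ hφ hcover c e y hy hc he mu mu' hmu hmu', ?_⟩
  intro t n ht hI i
  have h := hφ t
  rw [ht] at h
  exact factor_A_single h c _ hc (int_add R c e y hy hc he) hmu hmu' i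

end Pool.Agent.Results.MP_7d29e8_ag.MinusculeClassification
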